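import Pool.Agent.Y282.WD.Stm

/-!
# Project WD (helper282): expansion and lower bounds of `f₀` near the integers
-/

set_option autoImplicit false

open Filter Topology Metric Set

namespace Pool.Agent.Y888.WD

open Pool.Agent.H723R2.LSW Pool.Agent.Y282.WD

/-- mean value inequality on the unit disc -/
theorem step {F F' : ℂ → ℂ} (hF : ∀ z, HasDerivAt F (F' z) z) (h0 : F 0 = 0) {C : ℝ} {n : ℕ}
    (hC0 : 0 ≤ C) (hC : ∀ z : ℂ, ‖z‖ ≤ 1 → ‖F' z‖ ≤ C * ‖z‖ ^ n) :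
    ∀ h : ℂ, ‖h‖ ≤ 1 → ‖F h‖ ≤ C * ‖h‖ ^ (n + 1) := by
  intro h hh
  have h1 := (convex_closedBall (0 : ℂ) ‖h‖).norm_image_sub_le_of_norm_hasDerivWithin_le
    (f := F) (f' := F') (C := C * ‖h‖ ^ n) (fun z _ => (hF z).hasDerivWithinAt) (fun z hz => by
      rw [mem_closedBall, dist_zero_right] at hz
      refine (hC z (hz.trans hh)).trans ?_
      gcongr) (mem_closedBall_self (norm_nonneg h))
    (show h ∈ closedBall (0 : ℂ) ‖h‖ by rw [mem_closedBall, dist_zero_right])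
  rw [h0, sub_zero, sub_zero] at h1
  rw [pow_succ, ← mul_assoc]
  exact h1

theorem hpi (z : ℂ) : HasDerivAt (fun z : ℂ => (Real.pi : ℂ) * z) Real.pi z := by
  simpa using (hasDerivAt_id z).const_mul (Real.pi : ℂ)

theorem hc (z : ℂ) : HasDerivAt (fun z : ℂ => Complex.cos (Real.pi * z))
    (-Complex.sin (Real.pi * z) * Real.pi) z :=
  (Complex.hasDerivAt_cos _).comp z (hpi z)

theorem hs (z : ℂ) : HasDerivAt (fun z : ℂ => Complex.sin (Real.pi * z))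
    (Complex.cos (Real.pi * z) * Real.pi) z :=
  (Complex.hasDerivAt_sin _).comp z (hpi z)

theorem pi0 : (Real.pi : ℂ) ≠ 0 := by exact_mod_cast Real.pi_ne_zero

theorem npi : ‖(Real.pi : ℂ)‖ = Real.pi := by
  rw [Complex.norm_real, Real.norm_of_nonneg Real.pi_pos.le]

noncomputable def fA (h : ℂ) : ℂ :=
  h - 1 / Real.pi * (Complex.cos (Real.pi * h) * Complex.sin (Real.pi * h))

noncomputable def fB (h : ℂ) : ℂ :=
  1 / Real.pi * Complex.sin (Real.pi * h) - h * Complex.cos (Real.pi * h)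

noncomputable def fD (h : ℂ) : ℂ := 1 - Complex.cos (Real.pi * h)

theorem dA (h : ℂ) : HasDerivAt fA (2 * Complex.sin (Real.pi * h) ^ 2) h := by
  have h1 := (hasDerivAt_id h).sub (((hc h).mul (hs h)).const_mul (1 / (Real.pi : ℂ)))
  refine h1.congr_deriv ?_
  have h2 := Complex.sin_sq_add_cos_sq ((Real.pi : ℂ) * h)
  have h3 := pi0
  field_simp
  linear_combination -h2

theorem dB (h : ℂ) : HasDerivAt fB (Real.pi * h * Complex.sin (Real.pi * h)) h := by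
  have h1 := ((hs h).const_mul (1 / (Real.pi : ℂ))).sub ((hasDerivAt_id h).mul (hc h))
  refine h1.congr_deriv ?_
  have h3 := pi0
  simp only [id]
  field_simp
  ring

theorem dD (h : ℂ) : HasDerivAt fD (Real.pi * Complex.sin (Real.pi * h)) h := by
  refine ((hc h).const_sub 1).congr_deriv ?_
  ring

/-- the bound of the sine -/
theorem exists_s : ∃ C : ℝ, 0 ≤ C ∧ ∀ h : ℂ, ‖h‖ ≤ 1 → ‖Complex.sin (Real.pi * h)‖ ≤ C * ‖h‖ := by
  have hcont : Continuous fun z : ℂ => Complex.cos (Real.pi * z) * Real.pi := by fun_prop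
  obtain ⟨C, hC⟩ := (isCompact_closedBall (0 : ℂ) 1).exists_bound_of_continuousOn
    hcont.continuousOn
  refine ⟨max C 0, le_max_right _ _, fun h hh => ?_⟩
  have h1 := step (n := 0) hs (by simp) (le_max_right C 0) (fun z hz => by
    rw [pow_zero, mul_one]
    exact (hC z (by simpa using hz)).trans (le_max_left _ _)) h hh
  simpa using h1

theorem bds : ∃ C : ℝ, 0 ≤ C ∧ ∀ h : ℂ, ‖h‖ ≤ 1 → ‖Complex.sin (Real.pi * h)‖ ≤ C * ‖h‖ ∧
    ‖fA h‖ ≤ 2 * C ^ 2 * ‖h‖ ^ 3 ∧ ‖fB h‖ ≤ Real.pi * C * ‖h‖ ^ 3 ∧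
    ‖fD h - Real.pi ^ 2 / 2 * h ^ 2‖ ≤ Real.pi ^ 3 * C * ‖h‖ ^ 4 := by
  obtain ⟨C, hC0, hC⟩ := exists_s
  have hpp := Real.pi_pos
  refine ⟨C, hC0, fun h hh => ⟨hC h hh, ?_, ?_, ?_⟩⟩
  · refine step (n := 2) dA (by simp [fA]) (by positivity) (fun z hz => ?_) h hh
    have h1 := hC z hz
    rw [norm_mul, norm_pow, Complex.norm_ofNat]
    calc 2 * ‖Complex.sin (Real.pi * z)‖ ^ 2 ≤ 2 * (C * ‖z‖) ^ 2 := by gcongr
      _ = 2 * C ^ 2 * ‖z‖ ^ 2 := by ring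
  · refine step (n := 2) dB (by simp [fB]) (by positivity) (fun z hz => ?_) h hh
    have h1 := hC z hz
    rw [norm_mul, norm_mul, npi]
    calc Real.pi * ‖z‖ * ‖Complex.sin (Real.pi * z)‖ ≤ Real.pi * ‖z‖ * (C * ‖z‖) := by gcongr
      _ = Real.pi * C * ‖z‖ ^ 2 := by ring
  · have h1 : ∀ z : ℂ, ‖z‖ ≤ 1 → ‖fD z‖ ≤ Real.pi * C * ‖z‖ ^ 2 := by
      refine step (n := 1) dD (by simp [fD]) (by positivity) (fun z hz => ?_)
      have h1 := hC z hz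
      rw [norm_mul, npi, pow_one, mul_assoc]
      gcongr
    have d2 : ∀ z : ℂ, HasDerivAt (fun z : ℂ => Real.pi * Complex.sin (Real.pi * z) -
        Real.pi ^ 2 * z) (-(Real.pi ^ 2 * fD z)) z := by
      intro z
      have h2 := ((hs z).const_mul (Real.pi : ℂ)).sub
        ((hasDerivAt_id z).const_mul ((Real.pi : ℂ) ^ 2))
      refine h2.congr_deriv ?_
      unfold fD
      ring
    have h2 : ∀ z : ℂ, ‖z‖ ≤ 1 → ‖Real.pi * Complex.sin (Real.pi * z) - Real.pi ^ 2 * z‖ ≤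
        Real.pi ^ 3 * C * ‖z‖ ^ 3 := by
      refine step (n := 2) d2 (by simp) (by positivity) (fun z hz => ?_)
      have h3 := h1 z hz
      rw [norm_neg, norm_mul, norm_pow, npi]
      calc Real.pi ^ 2 * ‖fD z‖ ≤ Real.pi ^ 2 * (Real.pi * C * ‖z‖ ^ 2) := by gcongr
        _ = Real.pi ^ 3 * C * ‖z‖ ^ 2 := by ring
    have d3 : ∀ z : ℂ, HasDerivAt (fun z : ℂ => fD z - Real.pi ^ 2 / 2 * z ^ 2)
        (Real.pi * Complex.sin (Real.pi * z) - Real.pi ^ 2 * z) z := by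
      intro z
      have h3 := (dD z).sub ((hasDerivAt_pow 2 z).const_mul ((Real.pi : ℂ) ^ 2 / 2))
      refine h3.congr_deriv ?_
      push_cast
      ring
    exact step (n := 3) d3 (by simp [fD]) (by positivity) h2 h hh

/-- the expansion -/
theorem key (m : ℤ) : ∃ ε : ℂ, ‖ε‖ = 1 ∧ (∀ h : ℂ, f₀ (m + h) - (T m : ℂ) =
      fA h + ε / 2 * fB h + ε / 2 * ((m : ℂ) + 1 / 2) * fD h) ∧
    ∀ h : ℂ, deriv f₀ (m + h) = Complex.sin (Real.pi * h) *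
      (2 * Complex.sin (Real.pi * h) + ε * Real.pi / 2 * ((m : ℂ) + 1 / 2 + h)) := by
  have hsm : Complex.sin (Real.pi * (m : ℂ)) = 0 := by
    rw [mul_comm]; exact Complex.sin_int_mul_pi m
  obtain ⟨ε, hε, hcm⟩ : ∃ ε : ℂ, (ε = 1 ∨ ε = -1) ∧ Complex.cos (Real.pi * (m : ℂ)) = ε := by
    refine ⟨_, ?_, rfl⟩
    have := Complex.sin_sq_add_cos_sq ((Real.pi : ℂ) * (m : ℂ))
    rw [hsm] at this
    have h2 : Complex.cos (Real.pi * (m : ℂ)) ^ 2 = 1 := by simpa using this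
    have h3 : (Complex.cos (Real.pi * (m : ℂ)) - 1) * (Complex.cos (Real.pi * (m : ℂ)) + 1) = 0 := by
      linear_combination h2
    rcases mul_eq_zero.1 h3 with h4 | h4
    · exact Or.inl (by linear_combination h4)
    · exact Or.inr (by linear_combination h4)
  have hε2 : ε ^ 2 = 1 := by rcases hε with rfl | rfl <;> norm_num
  have hT : (T m : ℂ) = m / 2 + (m + 1 / 2) * ((1 - ε) / 2) := by
    rw [← f₀_int]; unfold f₀; rw [hsm, hcm]; ring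
  have e1 : ∀ h : ℂ, Complex.cos (Real.pi * (m + h)) = ε * Complex.cos (Real.pi * h) := by
    intro h
    rw [mul_add, Complex.cos_add, hsm, hcm]; ring
  have e2 : ∀ h : ℂ, Complex.sin (Real.pi * (m + h)) = ε * Complex.sin (Real.pi * h) := by
    intro h
    rw [mul_add, Complex.sin_add, hsm, hcm]; ring
  refine ⟨ε, by rcases hε with rfl | rfl <;> norm_num, fun h => ?_, fun h => ?_⟩
  · unfold f₀
    rw [hT, e1, e2]
    simp only [fA, fB, fD]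
    linear_combination (-1 / (Real.pi : ℂ) * Complex.cos (Real.pi * h) *
      Complex.sin (Real.pi * h)) * hε2
  · rw [(f₀_hasDerivAt (m + h)).deriv, e1, e2]
    have h2 := Complex.sin_sq_add_cos_sq ((Real.pi : ℂ) * h)
    have h3 := pi0
    field_simp
    linear_combination (4 * Complex.sin (Real.pi * h) ^ 2 - 4 * Complex.cos (Real.pi * h) ^ 2) * hε2 -
      4 * h2

theorem nm (m : ℤ) : ‖(m : ℂ) + 1 / 2‖ = |(m : ℝ) + 1 / 2| := by
  have : (m : ℂ) + 1 / 2 = (((m : ℝ) + 1 / 2 : ℝ) : ℂ) := by push_cast; ring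
  rw [this, Complex.norm_real, Real.norm_eq_abs]

theorem t_NEAR : S_NEAR := by
  obtain ⟨C, hC0, hC⟩ := bds
  have hpp := Real.pi_pos
  refine ⟨2 * C ^ 2 + 2 * Real.pi * C + 1, by nlinarith [mul_nonneg hpp.le hC0, sq_nonneg C],
    fun m z hz => ?_⟩
  obtain ⟨ε, hε, h1, -⟩ := key m
  obtain ⟨h, hh⟩ : ∃ h : ℂ, h = z - m := ⟨_, rfl⟩
  have hz' : z = m + h := by rw [hh]; ring
  rw [← hh] at hz ⊢
  rw [hz', h1]
  obtain ⟨-, bA, bB, bD⟩ := hC h hz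
  have hb : bt m = Real.pi ^ 2 / 4 * ‖(m : ℂ) + 1 / 2‖ := by rw [nm]; rfl
  have hb' : ‖(m : ℂ) + 1 / 2‖ = 4 / Real.pi ^ 2 * bt m := by
    rw [hb]
    field_simp
  have hb0 : 0 ≤ bt m := by rw [hb]; positivity
  have e1 : fA h + ε / 2 * fB h + ε / 2 * ((m : ℂ) + 1 / 2) * fD h =
      ε * ((m : ℂ) + 1 / 2) * (Real.pi ^ 2 / 4) * h ^ 2 + (fA h + ε / 2 * fB h +
        ε / 2 * ((m : ℂ) + 1 / 2) * (fD h - Real.pi ^ 2 / 2 * h ^ 2)) := by ring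
  have e2 : ‖ε * ((m : ℂ) + 1 / 2) * (Real.pi ^ 2 / 4) * h ^ 2‖ = bt m * ‖h‖ ^ 2 := by
    rw [norm_mul, norm_mul, norm_mul, hε, norm_pow, norm_div, norm_pow, npi, hb,
      Complex.norm_ofNat]
    ring
  rw [e1, ← e2]
  refine (abs_norm_sub_norm_le _ _).trans ?_
  rw [add_sub_cancel_left]
  have e3 : ‖ε / 2‖ = 1 / 2 := by rw [norm_div, hε]; norm_num
  have h0 : 0 ≤ ‖h‖ := norm_nonneg h
  calc ‖fA h + ε / 2 * fB h + ε / 2 * ((m : ℂ) + 1 / 2) * (fD h - Real.pi ^ 2 / 2 * h ^ 2)‖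
      ≤ ‖fA h‖ + ‖ε / 2 * fB h‖ +
        ‖ε / 2 * ((m : ℂ) + 1 / 2) * (fD h - Real.pi ^ 2 / 2 * h ^ 2)‖ := norm_add₃_le
    _ = ‖fA h‖ + 1 / 2 * ‖fB h‖ +
        1 / 2 * (4 / Real.pi ^ 2 * bt m) * ‖fD h - Real.pi ^ 2 / 2 * h ^ 2‖ := by
        rw [norm_mul, norm_mul, norm_mul, e3, hb']
    _ ≤ 2 * C ^ 2 * ‖h‖ ^ 3 + 1 / 2 * (Real.pi * C * ‖h‖ ^ 3) +
        1 / 2 * (4 / Real.pi ^ 2 * bt m) * (Real.pi ^ 3 * C * ‖h‖ ^ 4) := by gcongr
    _ = (2 * C ^ 2 + 1 / 2 * (Real.pi * C)) * ‖h‖ ^ 3 +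
        2 * Real.pi * C * ‖h‖ ^ 3 * (bt m * ‖h‖) := by
        field_simp
        ring
    _ ≤ (2 * C ^ 2 + 2 * Real.pi * C + 1) * ‖h‖ ^ 3 * (1 + bt m * ‖h‖) := by
        have h3 : 0 ≤ ‖h‖ ^ 3 := by positivity
        have h4 : 0 ≤ ‖h‖ ^ 3 * (bt m * ‖h‖) := by positivity
        have h5 : 0 ≤ Real.pi * C := by positivity
        nlinarith [mul_nonneg h3 h5, mul_nonneg h4 h5, mul_nonneg h4 (sq_nonneg C)]

/-! ### Lower bounds -/

theorem sin_lower {x : ℂ} (hx : ‖x‖ ≤ 1) : ‖x‖ / 2 ≤ ‖Complex.sin x‖ := by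
  have h1 := Complex.sin_bound hx
  have h2 : ‖x‖ ≤ ‖Complex.sin x‖ + ‖Complex.sin x - (x - x ^ 3 / 6)‖ + ‖x ^ 3 / 6‖ := by
    have e : x = Complex.sin x - (Complex.sin x - (x - x ^ 3 / 6)) + x ^ 3 / 6 := by ring
    calc ‖x‖ = ‖Complex.sin x - (Complex.sin x - (x - x ^ 3 / 6)) + x ^ 3 / 6‖ := by rw [← e]
      _ ≤ ‖Complex.sin x - (Complex.sin x - (x - x ^ 3 / 6))‖ + ‖x ^ 3 / 6‖ := norm_add_le _ _
      _ ≤ _ := by
        gcongr
        exact norm_sub_le _ _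
  have h3 : ‖x ^ 3 / 6‖ = ‖x‖ ^ 3 / 6 := by rw [norm_div, norm_pow]; norm_num
  have h0 : 0 ≤ ‖x‖ := norm_nonneg x
  have h4 : ‖x‖ ^ 3 ≤ ‖x‖ := by
    calc ‖x‖ ^ 3 = ‖x‖ * ‖x‖ ^ 2 := by ring
      _ ≤ ‖x‖ * 1 := by
        gcongr
        exact pow_le_one₀ h0 hx
      _ = ‖x‖ := mul_one _
  have h5 : ‖x‖ ^ 5 ≤ ‖x‖ := by
    calc ‖x‖ ^ 5 = ‖x‖ * ‖x‖ ^ 4 := by ring
      _ ≤ ‖x‖ * 1 := by
        gcongr
        exact pow_le_one₀ h0 hx
      _ = ‖x‖ := mul_one _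
  rw [h3] at h2
  linarith

theorem fD_lower {h : ℂ} (hh : ‖h‖ ≤ 1 / 2) : Real.pi ^ 2 / 8 * ‖h‖ ^ 2 ≤ ‖fD h‖ := by
  have hpp := Real.pi_pos
  have h1 : fD h = 2 * Complex.sin (Real.pi * h / 2) ^ 2 := by
    unfold fD
    have e1 : (Real.pi : ℂ) * h = 2 * (Real.pi * h / 2) := by ring
    have h2 := Complex.sin_sq_add_cos_sq ((Real.pi : ℂ) * h / 2)
    have h3 := Complex.cos_two_mul ((Real.pi : ℂ) * h / 2)
    rw [← e1] at h3
    rw [h3]
    linear_combination -2 * h2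
  have h2 : ‖(Real.pi : ℂ) * h / 2‖ = Real.pi * ‖h‖ / 2 := by
    rw [norm_div, norm_mul, npi]
    norm_num
  have h3 : ‖(Real.pi : ℂ) * h / 2‖ ≤ 1 := by
    rw [h2]
    nlinarith [Real.pi_lt_four, norm_nonneg h]
  have h4 := sin_lower h3
  rw [h2] at h4
  rw [h1, norm_mul, norm_pow, Complex.norm_ofNat]
  have h5 : (Real.pi * ‖h‖ / 2 / 2) ^ 2 ≤ ‖Complex.sin (Real.pi * h / 2)‖ ^ 2 := by
    gcongr
  nlinarith

theorem t_LOW : S_LOW := by
  obtain ⟨C, hC0, hC⟩ := bds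
  have hpp := Real.pi_pos
  refine ⟨1 / 8, by norm_num, 8 * (2 * C ^ 2 + Real.pi * C) + 2 * (C + 1) + 1, fun m hm z hz => ?_⟩
  obtain ⟨ε, hε, h1, h1'⟩ := key m
  obtain ⟨h, hh⟩ : ∃ h : ℂ, h = z - m := ⟨_, rfl⟩
  have hz' : z = m + h := by rw [hh]; ring
  rw [← hh] at hz ⊢
  have hz1 : ‖h‖ ≤ 1 := by linarith
  obtain ⟨bS, bA, bB, -⟩ := hC h hz1
  have hb : bt m = Real.pi ^ 2 / 4 * ‖(m : ℂ) + 1 / 2‖ := by rw [nm]; rfl
  have hb' : ‖(m : ℂ) + 1 / 2‖ = 4 / Real.pi ^ 2 * bt m := by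
    rw [hb]
    field_simp
  have hb0 : 0 ≤ bt m := by rw [hb]; positivity
  have h0 : 0 ≤ ‖h‖ := norm_nonneg h
  have hC2 : 0 ≤ C ^ 2 := sq_nonneg C
  have hpC : 0 ≤ Real.pi * C := by positivity
  rw [hz']
  constructor
  · rw [h1]
    have e3 : ‖ε / 2‖ = 1 / 2 := by rw [norm_div, hε]; norm_num
    have h32 : ‖h‖ ^ 3 ≤ ‖h‖ ^ 2 := by
      calc ‖h‖ ^ 3 = ‖h‖ ^ 2 * ‖h‖ := by ring
        _ ≤ ‖h‖ ^ 2 * 1 := by gcongr
        _ = ‖h‖ ^ 2 := mul_one _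
    have h2 : ‖ε / 2 * ((m : ℂ) + 1 / 2) * fD h‖ ≤
        ‖fA h + ε / 2 * fB h + ε / 2 * ((m : ℂ) + 1 / 2) * fD h‖ + (‖fA h‖ + ‖ε / 2 * fB h‖) := by
      have e : ε / 2 * ((m : ℂ) + 1 / 2) * fD h =
          (fA h + ε / 2 * fB h + ε / 2 * ((m : ℂ) + 1 / 2) * fD h) - (fA h + ε / 2 * fB h) := by
        ring
      calc ‖ε / 2 * ((m : ℂ) + 1 / 2) * fD h‖ =
          ‖(fA h + ε / 2 * fB h + ε / 2 * ((m : ℂ) + 1 / 2) * fD h) -
            (fA h + ε / 2 * fB h)‖ := by rw [← e]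
        _ ≤ _ := (norm_sub_le _ _).trans (by
          gcongr
          exact norm_add_le _ _)
    rw [norm_mul, norm_mul, e3, hb', norm_mul, e3] at h2
    have h3 := fD_lower hz
    have h4 : bt m / 4 * ‖h‖ ^ 2 ≤ 1 / 2 * (4 / Real.pi ^ 2 * bt m) * ‖fD h‖ := by
      calc bt m / 4 * ‖h‖ ^ 2 = 1 / 2 * (4 / Real.pi ^ 2 * bt m) * (Real.pi ^ 2 / 8 * ‖h‖ ^ 2) := by
            field_simp
            ring
        _ ≤ _ := by gcongr
    have h5 : ‖fA h‖ + 1 / 2 * ‖fB h‖ ≤ (2 * C ^ 2 + Real.pi * C) * ‖h‖ ^ 2 := by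
      have h6 : 2 * C ^ 2 * ‖h‖ ^ 3 ≤ 2 * C ^ 2 * ‖h‖ ^ 2 := by gcongr
      have h7 : Real.pi * C * ‖h‖ ^ 3 ≤ Real.pi * C * ‖h‖ ^ 2 := by gcongr
      have h8 : 0 ≤ Real.pi * C * ‖h‖ ^ 2 := by positivity
      linarith
    have h6 : 8 * (2 * C ^ 2 + Real.pi * C) ≤ bt m := by linarith
    have h7 : 8 * (2 * C ^ 2 + Real.pi * C) * ‖h‖ ^ 2 ≤ bt m * ‖h‖ ^ 2 := by gcongr
    linarith
  · intro hne
    have hh0 : h ≠ 0 := by
      rintro h0
      apply hne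
      rw [h0, add_zero]
    rw [h1']
    refine mul_ne_zero ?_ ?_
    · intro hs0
      rw [Complex.sin_eq_zero_iff] at hs0
      obtain ⟨j, hj⟩ := hs0
      have h2 : h = (j : ℂ) := by
        have h3 : (Real.pi : ℂ) * (h - j) = 0 := by linear_combination hj
        rcases mul_eq_zero.1 h3 with h4 | h4
        · exact absurd h4 pi0
        · exact sub_eq_zero.1 h4
      rw [h2, Complex.norm_intCast] at hz
      have h3 : |(j : ℝ)| < 1 := by linarith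
      have h4 : |j| < 1 := by exact_mod_cast h3
      have h5 : j = 0 := Int.abs_lt_one_iff.1 h4
      apply hh0
      rw [h2, h5, Int.cast_zero]
    · intro h2
      have h3 : ε * Real.pi / 2 * ((m : ℂ) + 1 / 2) =
          -(2 * Complex.sin (Real.pi * h)) - ε * Real.pi / 2 * h := by
        linear_combination h2
      have h4 := congrArg norm h3
      have h5 : ‖ε * Real.pi / 2‖ = Real.pi / 2 := by
        rw [norm_div, norm_mul, hε, npi]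
        norm_num
      rw [norm_mul, h5, hb'] at h4
      have h6 : ‖-(2 * Complex.sin (Real.pi * h)) - ε * Real.pi / 2 * h‖ ≤
          2 * (C * (1 / 2)) + Real.pi / 2 * (1 / 2) := by
        refine (norm_sub_le _ _).trans ?_
        rw [norm_neg, norm_mul, norm_mul, h5, Complex.norm_ofNat]
        have h7 : ‖Complex.sin (Real.pi * h)‖ ≤ C * (1 / 2) := bS.trans (by gcongr)
        gcongr
      rw [← h4] at h6
      have h7 : Real.pi / 2 * (4 / Real.pi ^ 2 * bt m) = 2 * bt m / Real.pi := by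
        field_simp
        ring
      rw [h7] at h6
      have h8 : bt m / 2 ≤ 2 * bt m / Real.pi := by
        rw [div_le_div_iff₀ (by norm_num) hpp]
        nlinarith [Real.pi_lt_four]
      have h9 := Real.pi_lt_four
      linarith

end Pool.Agent.Y888.WD
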